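import Pool.Agent.V8H84.SF.Compare

/-!
# Derived equivalent varieties with semiample canonical or anticanonical bundle, all dimensions

Let `X` and `Y` be derived equivalent smooth projective varieties of dimension `n` whose canonical
(or anticanonical) bundles are semiample. An alternating sum of their Betti numbers agrees; the
Hodge numbers agree if those of `X` are at most those of `Y` in the degrees `n - 4, n - 6, ...` and
at least those of `Y` in the degrees `n - 3, n - 5, ...`; and they agree if the cohomology of `X`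
outside the degrees `n - 2, n, n + 2` is as small as possible.
-/

set_option autoImplicit false

namespace Pool.Agent.Results.MP_b4fe5e_ag.ComparisonOfHodgeNumbers

open Pool.Agent.V8H84.SF Finset

theorem result (n : ℕ) (X Y : Variety n) (h : SemiampleEquivalent n X Y) :
    (∑ p ∈ range (n + 1), ∑ q ∈ range (n + 1),
        (-1 : ℤ) ^ (p + q) * (((p : ℤ) + q - n) ^ 2 / 8) * X.h p q =
      ∑ p ∈ range (n + 1), ∑ q ∈ range (n + 1),
        (-1 : ℤ) ^ (p + q) * (((p : ℤ) + q - n) ^ 2 / 8) * Y.h p q) ∧
    ((∀ p q : ℤ, 2 ≤ p + q → p + q ≤ n - 3 → Even (p + q - n) → X.h p q ≤ Y.h p q) →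
      (∀ p q : ℤ, 2 ≤ p + q → p + q ≤ n - 3 → Odd (p + q - n) → Y.h p q ≤ X.h p q) →
      ∀ p q : ℤ, X.h p q = Y.h p q) ∧
    (X.Small → ∀ p q : ℤ, X.h p q = Y.h p q) :=
  ⟨floor_sum h, comparison h, small_equal h⟩

end Pool.Agent.Results.MP_b4fe5e_ag.ComparisonOfHodgeNumbers
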