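import Pool.Agent.V8H77.RH.Final

/-!
# Derived invariance of Hodge numbers: equivalences of fibrations in threefolds

Let `X`, `Y` be smooth projective complex varieties of dimension `n` with `D(X) ≃ D(Y)`; `KRing n` is
the Hodge theory of such a variety and `FM X Y` the induced isomorphism of cohomology (real, graded
by `p - q`, isometric for the Mukai pairings; it commutes with the first Chern classes, because an
equivalence commutes with the Serre functors). Suppose that it also commutes with the pull-backs
`L`, `L'` of an ample class under morphisms `f : X → B`, `g : Y → B`. This holds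

* for all equivalences linear over `B` (relative Fourier–Mukai transforms);
* for all equivalences if the canonical (or anticanonical) classes are semiample and `f`, `g` are
  the morphisms to the canonical (anticanonical) models, `L` a multiple of `K`;
* for all equivalences and the Albanese morphisms, if `Aut⁰(X)` is affine (Rouquier,
  Popa–Schnell).

There is no condition on `f` and `g`. The condition `RelativeHodge` is the relative hard
Lefschetz theorem together with the relative Hodge–Riemann bilinear relations of de Cataldo and
Migliorini for all perversities; `blocks X L k p q` is the number of Jordan blocks of length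
`k + 1` of `L` which start in type `(p, q)`, the dimension of the `L`-primitive part of
`H^{-k}(B, ᵖH^a(f_* ℂ[n]))` of this type, where `a = p + q + k - n` is the perversity.

The theorem:

1. for each length `k + 1` the numbers of blocks satisfy the relations which the Hodge numbers of
   derived equivalent varieties of dimension `n - k` satisfy (`HodgeInertia` is the case `L = 0`);
2. if the numbers of blocks of `X` and `Y` agree in the perversities `≤ -3`, then all numbers of
   blocks and all Hodge numbers agree;
3. the ranks of `L ^ k` and `L' ^ k` on the classes of type `(p, q)` agree for `k ≥ n - 3`;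
4. if `f` and `g` are fibrations in threefolds (`Threefolds`: the perverse cohomology in degree
   `-3` is the intersection complex of `B`, and there is none in degrees `< -3`), then `X` and `Y`
   have the same Hodge numbers. The dimension `n` and the Kodaira dimension are arbitrary.

For a point `B` the last part is the known theorem on threefolds. By part 2 the Hodge numbers also
agree if all fibres of `f` and `g` have dimension four and the fibres over the general points of the
divisors of `B` are irreducible: then the perverse cohomology in degrees `-4` and `-3` consists of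
the intersection complexes of `B` with coefficients in `ℂ` and in `R¹f_*ℂ`, which are the same for
`Y` (the Picard varieties of the generic fibres are isogenous, Popa–Schnell, Honigs).

The proof: the primitive part of `L` in length `k + 1`, the kernel of `L ^ (k + 1)` modulo
`ker (L ^ k) + L ker (L ^ (k + 2))`, with the form `∫ L ^ k x conj(y)`, has the formal properties of
the cohomology of a unitary local system on a variety of dimension `n - k`, and the
equivalence induces on these primitive parts an isomorphism with the properties of a derived
equivalence.
-/

namespace Pool.Agent.Results.MP_b4fe5e_ag.RelativeThreefolds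

open Pool.Agent.W539.DI Pool.Agent.R929.DH Pool.Agent.V8H77.RH Finset

/-- **Theorem.** -/
theorem result {n : ℕ} (X Y : KRing n) (L : X.R) (L' : Y.R) (hX : RelativeHodge X L)
    (hY : RelativeHodge Y L') (Φ : FM X Y) (hc : Intertwines Φ X.c Y.c)
    (hL : Intertwines Φ L L') :
    -- the relations between the numbers of blocks of length `k + 1`
    ((∀ (k : ℕ) (a b : ℤ), a + b + k = n →
        ∑ j ∈ range n, blocks X L k (a - 1 - 2 * j) (b - 1 - 2 * j) =
          ∑ j ∈ range n, blocks Y L' k (a - 1 - 2 * j) (b - 1 - 2 * j) ∧
        blocks X L k a b + 2 * ∑ j ∈ range n, blocks X L k (a - 2 - 2 * j) (b - 2 - 2 * j) =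
          blocks Y L' k a b + 2 * ∑ j ∈ range n, blocks Y L' k (a - 2 - 2 * j) (b - 2 - 2 * j)) ∧
      ∀ (k : ℕ) (a b : ℤ), a + b + k + 1 = n →
        ∑ j ∈ range n, blocks X L k (a - j) (b - j) =
          ∑ j ∈ range n, blocks Y L' k (a - j) (b - j)) ∧
    -- equality in the perversities `≤ -3` implies equality
    ((∀ k : ℕ, (∀ p q : ℤ, 0 < p + q → p + q + k + 3 ≤ n →
          blocks X L k p q = blocks Y L' k p q) →
        ∀ p q : ℤ, blocks X L k p q = blocks Y L' k p q) ∧
      ((∀ (k : ℕ) (p q : ℤ), 0 < p + q → p + q + k + 3 ≤ n →
          blocks X L k p q = blocks Y L' k p q) →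
        ∀ p q : ℤ, X.h p q = Y.h p q)) ∧
    -- the ranks of the high powers
    (∀ k : ℕ, n ≤ k + 3 → ∀ p q : ℤ, rk X L k p q = rk Y L' k p q) ∧
    -- fibrations in threefolds
    (∀ b : ℤ → ℤ → ℕ, Threefolds X L b → Threefolds Y L' b → ∀ p q : ℤ, X.h p q = Y.h p q) := by
  have hall : (∀ (k : ℕ) (p q : ℤ), 0 < p + q → p + q + k + 3 ≤ n →
      blocks X L k p q = blocks Y L' k p q) → ∀ p q : ℤ, X.h p q = Y.h p q := fun h =>
    h_congr hX.mem hY.mem fun k => blocks_main hX hY Φ hc hL k (h k)
  refine ⟨⟨fun k a b hab => rel_even hX hY Φ hc hL k a b hab,
    fun k a b hab => rel_odd hX hY Φ hc hL k a b hab⟩,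
    ⟨fun k h => blocks_main hX hY Φ hc hL k h, hall⟩, ?_, ?_⟩
  · intro k hk
    refine rk_congr hX.mem hY.mem fun l hl => blocks_main hX hY Φ hc hL l ?_
    intro p q h1 h2
    omega
  · intro b h1 h2
    refine hall fun k p q _ h3 => ?_
    rcases (show p + q + k + 3 < n ∨ p + q + k + 3 = n by omega) with h4 | h4
    · rw [h1.none k p q h4, h2.none k p q h4]
    · rw [h1.base k p q h4, h2.base k p q h4]

end Pool.Agent.Results.MP_b4fe5e_ag.RelativeThreefolds
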