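import Pool.Agent.V8H84.SF.Main

/-!
# Derived equivalent fivefolds with semiample canonical or anticanonical bundle

Hodge numbers of derived equivalent smooth projective fivefolds whose canonical (or anticanonical)
bundles are semiample. The equivalence is seen through its action on cohomology, and through the
equivalences which it induces between corresponding pluricanonical divisors.
-/

set_option autoImplicit false

namespace Pool.Agent.Results.MP_b4fe5e_ag.SemiampleFivefolds

open Pool.Agent.V8H84.SF

theorem result (X Y : Variety 5) (h : SemiampleEquivalent 5 X Y) (p q : ℤ) :
    X.h p q = Y.h p q :=
  hodge_five h p q

end Pool.Agent.Results.MP_b4fe5e_ag.SemiampleFivefolds
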