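import Pool.Agent.V8H71.HN.Rough
import Pool.Agent.V8H71.HN.Betti

/-!
# One Hodge number, one Betti number, or a rough comparison near the middle decide

Question Q1 of `MP_b4fe5e_ag`: do derived equivalent smooth projective complex varieties have the
same Hodge numbers? Three reductions, which use only products with varieties of the simplest kind.

**(1) One Hodge number decides.** Suppose that for one triple `(N, a, b)` the single Hodge number
`h^{a,b}` is a derived invariant of varieties of dimension `N`. Then *all* Hodge numbers are derived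
invariants in every dimension `n ≤ min(a, b, N - a, N - b)`. So Q1 is equivalent to the derived
invariance of the middle Hodge numbers `h^{n,n}` in the dimensions `2n`, for infinitely many `n`;
and if Q1 has a counterexample in dimension `n₀`, then in every dimension `N ≥ 2 n₀` none of the
numbers `h^{a,b}` with `n₀ ≤ a, b ≤ N - n₀` is a derived invariant. The same holds for the
invariance modulo `m`, if `m` is odd, and for every `m`, if `h^{a,b}` lies on neither of the two
symmetry axes `a = b`, `a + b = N` of the Hodge diamond.

Proof. The Hodge polynomials of products of points, lines `ℙ¹`, planes `ℙ²` and elliptic curves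
generate `1 + xy`, `x + y`, `xy` in the degrees `1, 1, 2`, so by the recursions
`s_{r+1} = (x + y) s_r - xy s_{r-1}` for `s_r = x^r + y^r`,
`t_{e+1} = (1 + xy) t_e - xy t_{e-1}` for `t_e = 1 + (xy)^e`, all the symmetrised monomials
`x^p y^q + x^q y^p + x^{k-p} y^{k-q} + x^{k-q} y^{k-p}` in degree `k` (`mon_mem`). If `c(P, Q)` are
the differences of the Hodge numbers of derived equivalent `Z`, `W` of dimension `n`, the invariance
of `h^{a,b}` for the products of `Z` and `W` with the test varieties gives, with `R = a - b`,
`E = N - a - b`, `c(P,Q) + c(P-R,Q+R) + c(P+E,Q+E) + c(P+E-R,Q+E+R) ≡ 0` for `0 ≤ P, Q ≤ n`, and an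
induction from the edge of the Hodge diamond gives `c ≡ 0` (`ext_all`).

**(2) One Betti number decides.** If the single Betti number `b_j` is a derived invariant in
dimension `N`, then all Betti numbers are derived invariants in every dimension `n` with
`2n ≤ j ≤ 2(N - n)` (also modulo an odd `m`).

**(3) A rough comparison near the middle decides.** Q1 has a positive answer if and only if for some
`δ > 0` the Hodge numbers `h^{p,q}` with `p, q` in the window of relative width `δ` around half the
dimension agree for derived equivalent `X`, `Y` up to a factor `K_ε b ^ ε`, for every `ε > 0`, where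
`b` is the sum of all Hodge numbers, for instance up to a factor polynomial in the dimension and in
`log b`. This needs only that the class of varieties is closed under products.

Proof. Take high powers of `X`, `Y`. For the tilted Hodge numbers `h^{p,q} u^p v^q`, `u`, `v` near
`1`, the mass of `X^k` off the window of width `δ` is exponentially small by Chernoff's bound
(the tilted means are near the middle, by Serre duality), so the rough comparison gives
`H_X(u, v) ≤ (1 + o(1)) H_Y(u, v)` for the Hodge polynomials near `(1, 1)`, by taking `k`-th roots;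
by symmetry they agree in an open set, hence everywhere.
-/

set_option autoImplicit false

open Finset

noncomputable section

namespace Pool.Agent.Results.MP_b4fe5e_ag.SingleHodgeNumber

open Pool.Agent.V8H71.HN

theorem one_le_total {T : VarClass} (hT : T.Standard) (X : T.V) : 1 ≤ T.total X := by
  unfold VarClass.total
  calc 1 = T.h X 0 0 := (hT.conn X).symm
    _ ≤ ∑ q ∈ range (T.dim X + 1), T.h X 0 q :=
      Finset.single_le_sum (f := fun q => T.h X 0 q) (fun q _ => Nat.zero_le _)
        (mem_range.mpr (Nat.succ_pos _))
    _ ≤ _ := Finset.single_le_sum (f := fun p => ∑ q ∈ range (T.dim X + 1), T.h X p q)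
      (fun p _ => Nat.zero_le _) (mem_range.mpr (Nat.succ_pos _))

theorem rough_of_invariance {T : VarClass} (hT : T.Standard) (δ : ℝ) (h : T.Invariance) :
    T.RoughMiddle δ := by
  intro ε hε
  refine ⟨1, fun X Y hXY p q _ _ => ?_⟩
  rw [h X Y hXY p q, one_mul]
  have h1 : (1 : ℝ) ≤ (T.total X : ℝ) := by exact_mod_cast one_le_total hT X
  exact le_mul_of_one_le_left (Nat.cast_nonneg _) (Real.one_le_rpow h1 hε.le)

/-- **Main result.** For a class `T` of smooth projective complex varieties with the standard facts
on Hodge numbers, products and derived equivalences: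

* (1) if `T` contains a point, `ℙ¹`, `ℙ²` and an elliptic curve, and `n ≤ a, b ≤ N - n`, then the
  derived invariance of the one Hodge number `h^{a,b}` modulo `m` in dimension `N` implies that of
  all Hodge numbers modulo `m` in dimension `n`, if `m` is odd or zero (invariance itself), and for
  every `m` if `a ≠ b` and `a + b ≠ N`;
* (2) under the same assumption on `T`, all Hodge numbers are derived invariants if and only if for
  every `n` some single `h^{a,b}`, `n ≤ a, b ≤ N - n`, is a derived invariant in dimension `N`, if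
  and only if for infinitely many `n` the middle number `h^{n,n}` is a derived invariant in
  dimension `2n`; and if Q1 fails for `X`, `Y` of dimension `n`, then for all `n ≤ a, b ≤ N - n`
  the number `h^{a,b}` is not a derived invariant in dimension `N`;
* (3) under the same assumption on `T`, if `2n ≤ j ≤ 2(N - n)` and `m` is odd or zero, the derived
  invariance of the one Betti number `b_j` modulo `m` in dimension `N` implies that of all Betti
  numbers modulo `m` in dimension `n`;
* (4) all Hodge numbers are derived invariants if and only if, for some `δ > 0`, those in the window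
  of relative width `δ` around the middle are, up to subexponential factors. -/
theorem result (T : VarClass) (hT : T.Standard) :
    (T.HasBasic → ∀ m n N a b : ℕ, n ≤ a → a + n ≤ N → n ≤ b → b + n ≤ N →
      ((Odd m ∨ m = 0) ∨ (a ≠ b ∧ a + b ≠ N)) → T.OneNumberMod m N a b → T.InvarianceMod m n) ∧
    (T.HasBasic →
      (T.Invariance ↔ ∀ n, ∃ N a b, n ≤ a ∧ a + n ≤ N ∧ n ≤ b ∧ b + n ≤ N ∧
        ∀ X Y, T.DE X Y → T.dim X = N → T.h X a b = T.h Y a b) ∧
      (T.Invariance ↔ ∀ n₀, ∃ n, n₀ ≤ n ∧
        ∀ X Y, T.DE X Y → T.dim X = 2 * n → T.h X n n = T.h Y n n) ∧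
      (∀ X Y p q, T.DE X Y → T.h X p q ≠ T.h Y p q →
        ∀ N a b, T.dim X ≤ a → a + T.dim X ≤ N → T.dim X ≤ b → b + T.dim X ≤ N →
          ∃ X' Y', T.DE X' Y' ∧ T.dim X' = N ∧ T.h X' a b ≠ T.h Y' a b)) ∧
    (T.HasBasic → ∀ m n N j : ℕ, 2 * n ≤ j → j + 2 * n ≤ 2 * N → (Odd m ∨ m = 0) →
      T.OneBettiMod m N j → ∀ i, T.OneBettiMod m n i) ∧
    (T.Invariance ↔ ∃ δ : ℝ, 0 < δ ∧ T.RoughMiddle δ) := by
  have one : T.HasBasic → ∀ m n N a b : ℕ, n ≤ a → a + n ≤ N → n ≤ b → b + n ≤ N →
      ((Odd m ∨ m = 0) ∨ (a ≠ b ∧ a + b ≠ N)) → T.OneNumberMod m N a b → T.InvarianceMod m n :=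
    fun hB m n N a b h1 h2 h3 h4 hm h => one_number hT hB hm h1 h2 h3 h4 h
  have zero : T.HasBasic → ∀ n N a b : ℕ, n ≤ a → a + n ≤ N → n ≤ b → b + n ≤ N →
      (∀ X Y, T.DE X Y → T.dim X = N → T.h X a b = T.h Y a b) →
      ∀ X Y, T.DE X Y → T.dim X = n → ∀ p q, T.h X p q = T.h Y p q := by
    intro hB n N a b h1 h2 h3 h4 h X Y hXY hn p q
    have h5 := one hB 0 n N a b h1 h2 h3 h4 (Or.inl (Or.inr rfl)) (fun X Y hXY hX => by
      rw [h X Y hXY hX]) X Y hXY hn p q
    exact Nat.modEq_zero_iff.mp h5
  refine ⟨one, fun hB => ⟨⟨fun h n => ?_, fun h X Y hXY p q => ?_⟩,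
    ⟨fun h n => ?_, fun h X Y hXY p q => ?_⟩, ?_⟩, fun hB m n N j h1 h2 hm h =>
    one_betti hT hB hm h1 h2 h, fun h => ⟨1, one_pos, rough_of_invariance hT 1 h⟩,
    fun ⟨δ, h1, h2⟩ => invariance_of_rough hT h1 h2⟩
  · exact ⟨2 * n, n, n, le_rfl, by omega, le_rfl, by omega, fun X Y hXY _ => h X Y hXY _ _⟩
  · obtain ⟨N, a, b, h1, h2, h3, h4, h5⟩ := h (T.dim X)
    exact zero hB _ N a b h1 h2 h3 h4 h5 X Y hXY rfl p q
  · exact ⟨n, le_rfl, fun X Y hXY _ => h X Y hXY _ _⟩
  · obtain ⟨n, h1, h5⟩ := h (T.dim X)
    exact zero hB _ (2 * n) n n h1 (by omega) h1 (by omega) h5 X Y hXY rfl p q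
  · intro X Y p q hXY hne N a b h1 h2 h3 h4
    by_contra hcon
    push Not at hcon
    exact hne (zero hB _ N a b h1 h2 h3 h4 hcon X Y hXY rfl p q)

end Pool.Agent.Results.MP_b4fe5e_ag.SingleHodgeNumber
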